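import Mathlib
import Pool.Agent.Q177.FrG

/-!
# MP_d042fc_an: the sextic Freud string equation has exactly one positive solution
-/

set_option autoImplicit false

namespace Pool.Agent.Results.MP_d042fc_an.UniquePositiveSolution

open Polynomial MeasureTheory

noncomputable section

/-- The symmetric sextic Freud weight `exp (-x ^ 6 + τ x ^ 4 + t x ^ 2)`. -/
def weight (τ t x : ℝ) : ℝ := Real.exp (-x ^ 6 + τ * x ^ 4 + t * x ^ 2)

/-- The moments of the weight. -/
def moment (τ t : ℝ) (k : ℕ) : ℝ := ∫ x : ℝ, x ^ k * weight τ t x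

/-- `b` is a positive solution of the equation (E): `b 0 = 0`, `b n > 0` for `n ≥ 1`, and (E) holds
for all `n ≥ 1`.  For `n = 1` the natural number `n - 2` is `0`, and `b 0 = 0`, which agrees with
the convention `b (-1) = 0`. -/
def IsPositiveSolution (τ t : ℝ) (b : ℕ → ℝ) : Prop :=
  b 0 = 0 ∧ (∀ n, 1 ≤ n → 0 < b n) ∧ ∀ n, 1 ≤ n →
    6 * b n * (b (n - 2) * b (n - 1) + b (n - 1) ^ 2 + 2 * b (n - 1) * b n
      + b (n - 1) * b (n + 1) + b n ^ 2 + 2 * b n * b (n + 1) + b (n + 1) ^ 2
      + b (n + 1) * b (n + 2))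
      - 4 * τ * b n * (b (n - 1) + b n + b (n + 1)) - 2 * t * b n = n

/-- There are monic orthogonal polynomials `P n` for the weight, with recurrence coefficients
`β n`, the coefficients have the stated first values, and `β` is the one and only positive
solution of (E). -/
def Statement (τ t : ℝ) : Prop :=
  ∃ (β : ℕ → ℝ) (P : ℕ → ℝ[X]),
    (P 0 = 1 ∧ P 1 = X ∧ ∀ n, P (n + 2) = X * P (n + 1) - C (β (n + 1)) * P n) ∧
    (∀ n, (P n).Monic ∧ (P n).natDegree = n) ∧
    (∀ m n, m ≠ n → ∫ x : ℝ, (P m).eval x * (P n).eval x * weight τ t x = 0) ∧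
    β 0 = 0 ∧ β 1 = moment τ t 2 / moment τ t 0 ∧
    β 2 = moment τ t 4 / moment τ t 2 - moment τ t 2 / moment τ t 0 ∧
    ∀ b : ℕ → ℝ, IsPositiveSolution τ t b ↔ b = β

/-- For all real `κ, τ` (with `t = -κ τ²`), and more generally for all real `τ, t`, the equation
(E) has exactly one positive solution, the sequence of recurrence coefficients of the orthogonal
polynomials for the sextic Freud weight. -/
theorem result : (∀ κ τ : ℝ, Statement τ (-κ * τ ^ 2)) ∧ ∀ τ t : ℝ, Statement τ t := by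
  have main : ∀ τ t : ℝ, Statement τ t := by
    intro τ t
    refine ⟨Q177.Fr.be τ t, Q177.Fr.P (Q177.Fr.be τ t), ⟨rfl, rfl, fun n => rfl⟩,
      fun n => ⟨Q177.Fr.P_monic _ n, Q177.Fr.P_natDegree _ n⟩, ?_, rfl, ?_, ?_, ?_⟩
    · intro m n hmn
      have h := Q177.Fr.L_PP_ne (Q177.Fr.be_zero τ t) (Q177.Fr.be_ort τ t) hmn
      rw [Q177.Fr.L0_apply] at h
      simp only [eval_mul] at h
      exact h
    · rw [Q177.Fr.be_one, Q177.Fr.L0_X_pow, Q177.Fr.L0_X_pow]
      rfl
    · rw [Q177.Fr.be_two, Q177.Fr.L0_X_pow, Q177.Fr.L0_X_pow, Q177.Fr.L0_X_pow]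
      rfl
    · intro b
      constructor
      · rintro ⟨h0, hp, hE⟩
        apply Q177.Fr.unique τ t h0 (fun n => hp (n + 1) (by omega))
        intro n
        have := hE (n + 1) (by omega)
        rw [Q177.Fr.lhs]
        push_cast at this
        exact this
      · rintro rfl
        refine ⟨Q177.Fr.be_zero τ t, fun n hn => ?_, fun n hn => ?_⟩
        · obtain ⟨k, rfl⟩ := Nat.exists_eq_add_of_le' hn
          exact Q177.Fr.be_pos τ t k
        · obtain ⟨k, rfl⟩ := Nat.exists_eq_add_of_le' hn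
          have := Q177.Fr.be_string τ t k
          rw [Q177.Fr.lhs] at this
          push_cast
          exact this
  exact ⟨fun κ τ => main τ _, main⟩

end

end Pool.Agent.Results.MP_d042fc_an.UniquePositiveSolution
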